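import Mathlib

set_option autoImplicit false

namespace Pool.Agent.Helper365_Ramsey

open Filter

/-- A function to a finite type is constant along an ultrafilter. -/
lemma exists_ultra_const {ι C : Type*} [Finite C] (U : Ultrafilter ι) (f : ι → C) :
    ∃ x, ∀ᶠ i in (U : Filter ι), f i = x := by
  obtain ⟨a, ha⟩ := (U.map f).eq_pure_of_finite
  refine ⟨a, ?_⟩
  have h1 : ({a} : Set C) ∈ U.map f := by
    rw [ha]; exact Ultrafilter.mem_pure.2 rfl
  exact h1

/-- Ramsey's theorem for `M`-element sets of natural numbers, finite homogeneous sets. -/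
theorem ramsey_inf {C : Type*} [Finite C] (M : ℕ) (c : Finset ℕ → C) (K : ℕ) :
    ∃ S : Finset ℕ, S.card = K ∧ ∃ χ : C, ∀ A ⊆ S, A.card = M → c A = χ := by
  classical
  let U : Ultrafilter ℕ := hyperfilter ℕ
  choose L hL using fun f : ℕ → C => exists_ultra_const U f
  -- iterated limits
  let d : ℕ → Finset ℕ → C := fun j => Nat.rec c (fun _ dj A => L (fun y => dj (insert y A))) j
  have hd0 : ∀ A, d 0 A = c A := fun _ => rfl
  have hds : ∀ j A, d (j + 1) A = L (fun y => d j (insert y A)) := fun _ _ => rfl
  have key : ∀ K, ∃ S : Finset ℕ, S.card = K ∧ ∀ A ⊆ S, A.card ≤ M →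
      d (M - A.card) A = d M ∅ := by
    intro K
    induction K with
    | zero =>
      refine ⟨∅, rfl, fun A hA _ => ?_⟩
      have : A = ∅ := Finset.subset_empty.1 hA
      subst this; simp
    | succ K ih =>
      obtain ⟨S, hS, hA⟩ := ih
      have h1 : ∀ A ∈ S.powerset.filter (fun A => A.card < M),
          ∀ᶠ y in (U : Filter ℕ), d (M - (A.card + 1)) (insert y A) = d M ∅ := by
        intro A hAS
        rw [Finset.mem_filter, Finset.mem_powerset] at hAS
        have h2 := hA A hAS.1 hAS.2.le
        have h3 : M - A.card = (M - (A.card + 1)) + 1 := by omega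
        rw [h3, hds] at h2
        filter_upwards [hL (fun y => d (M - (A.card + 1)) (insert y A))] with y hy
        rw [hy, h2]
      have h2 : ∀ᶠ y in (U : Filter ℕ), ∀ A ∈ S.powerset.filter (fun A => A.card < M),
          d (M - (A.card + 1)) (insert y A) = d M ∅ :=
        (Filter.eventually_all_finset _).2 h1
      have h3 : ∀ᶠ y in (U : Filter ℕ), y ∉ S := by
        have : (↑S : Set ℕ).Finite := S.finite_toSet
        exact this.compl_mem_hyperfilter
      obtain ⟨y, hy1, hy2⟩ := (h2.and h3).exists
      refine ⟨insert y S, by rw [Finset.card_insert_of_notMem hy2, hS], ?_⟩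
      intro A' hA' hcard
      by_cases hyA : y ∈ A'
      · have hE : insert y (A'.erase y) = A' := Finset.insert_erase hyA
        have hc : (A'.erase y).card + 1 = A'.card := Finset.card_erase_add_one hyA
        have hsub : A'.erase y ⊆ S := by
          intro z hz
          rw [Finset.mem_erase] at hz
          have := hA' hz.2
          rw [Finset.mem_insert] at this
          rcases this with h | h
          · exact absurd h hz.1
          · exact h
        have h4 := hy1 (A'.erase y) (by
          rw [Finset.mem_filter, Finset.mem_powerset]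
          exact ⟨hsub, by omega⟩)
        rw [hE, hc] at h4
        exact h4
      · refine hA A' ?_ hcard
        intro z hz
        have := hA' hz
        rw [Finset.mem_insert] at this
        rcases this with h | h
        · exact absurd (h ▸ hz) hyA
        · exact h
  obtain ⟨S, hS, hA⟩ := key K
  refine ⟨S, hS, d M ∅, fun A hAS hAM => ?_⟩
  have := hA A hAS hAM.le
  rw [hAM, Nat.sub_self] at this
  exact this

/-- Finite Ramsey theorem for `M`-element sets. -/
theorem ramsey_fin (C : Type*) [Finite C] (M K : ℕ) :
    ∃ N : ℕ, ∀ c : Finset ℕ → C, ∃ S ⊆ Finset.range N, S.card = K ∧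
      ∃ χ : C, ∀ A ⊆ S, A.card = M → c A = χ := by
  classical
  by_contra hcon
  push Not at hcon
  choose c hc using hcon
  let U : Ultrafilter ℕ := hyperfilter ℕ
  choose c' hc' using fun A : Finset ℕ => exists_ultra_const U (fun N => c N A)
  obtain ⟨S, hS, χ, hχ⟩ := ramsey_inf M c' K
  have h1 : ∀ᶠ N in (U : Filter ℕ), ∀ A ∈ S.powerset, c N A = c' A :=
    (Filter.eventually_all_finset _).2 (fun A _ => hc' A)
  have h2 : ∀ᶠ N in (U : Filter ℕ), S ⊆ Finset.range N := by
    have h3 : ∀ᶠ N in (atTop : Filter ℕ), S ⊆ Finset.range N := by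
      filter_upwards [eventually_ge_atTop (S.sup id + 1)] with N hN
      intro x hx
      have : x ≤ S.sup id := Finset.le_sup (f := id) hx
      exact Finset.mem_range.2 (by omega)
    rw [← Nat.cofinite_eq_atTop] at h3
    exact Filter.hyperfilter_le_cofinite h3
  obtain ⟨N, hN1, hN2⟩ := (h1.and h2).exists
  obtain ⟨A, hA, hAM, hne⟩ := hc N S hN2 hS χ
  apply hne
  rw [hN1 A (Finset.mem_powerset.2 hA)]
  exact hχ A hA hAM

end Pool.Agent.Helper365_Ramsey
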