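import Pool.Agent.Helper365_Ramsey.Near

set_option autoImplicit false

namespace Pool.Agent.Helper365_Ramsey

open Filter

/-- The tail of a point. -/
noncomputable def tl {m : ℕ} (y : E (Fin (m + 1))) : E (Fin m) :=
  WithLp.toLp 2 (fun i => y i.succ)

lemma dist_tl {m : ℕ} (y y' : E (Fin (m + 1))) :
    dist y y' ^ 2 = dist (y 0) (y' 0) ^ 2 + dist (tl y) (tl y') ^ 2 := by
  rw [dist_sq_eq, dist_sq_eq, Fin.sum_univ_succ, Real.dist_eq, sq_abs]
  rfl

theorem near_box (L η : ℝ) (hL : 0 ≤ L) (hη : 0 < η) (m : ℕ) : ∀ (C : Type) [Finite C],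
    ∃ (κ : Type) (_ : Fintype κ) (F : Set (E κ)), F.Finite ∧ ∀ c : E κ → C,
      ∃ (ι q : E (Fin m) → E κ), Isometry ι ∧
        (∀ y : E (Fin m), (∀ i, 0 ≤ y i ∧ y i ≤ L) → q y ∈ F ∧ dist (q y) (ι y) ^ 2 ≤ m * η ^ 2) ∧
        ∃ a, ∀ y : E (Fin m), (∀ i, 0 ≤ y i ∧ y i ≤ L) → c (q y) = a := by
  induction m with
  | zero =>
    intro C _
    refine ⟨Fin 0, inferInstance, {0}, Set.finite_singleton _, fun c => ⟨id, id, isometry_id, ?_,
      c 0, ?_⟩⟩
    · intro y _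
      have : y = 0 := Subsingleton.elim _ _
      subst this
      simp
    · intro y _
      have : y = 0 := Subsingleton.elim _ _
      subst this
      rfl
  | succ m ih =>
    intro C _
    obtain ⟨κ, hκ, F₂, hF₂, h₂⟩ := ih C
    have : Finite F₂ := hF₂
    obtain ⟨N, F₁, hF₁, h₁⟩ := near_line L η hη (F₂ → C)
    refine ⟨Fin N ⊕ κ, inferInstance, Set.image2 pr F₁ F₂, hF₁.image2 _ hF₂, fun c => ?_⟩
    obtain ⟨ι₁, q₁, hι₁, hq₁, a₁, ha₁⟩ := h₁ (fun x f => c (pr x f))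
    obtain ⟨ι₂, q₂, hι₂, hq₂, a₂, ha₂⟩ := h₂ (fun v => c (pr (q₁ 0) v))
    refine ⟨fun y => pr (ι₁ (y 0)) (ι₂ (tl y)), fun y => pr (q₁ (y 0)) (q₂ (tl y)), ?_, ?_, a₂, ?_⟩
    · refine isometry_of_sq _ fun y y' => ?_
      rw [dist_pr, hι₁.dist_eq, hι₂.dist_eq, dist_tl]
    · intro y hy
      have hy1 := hq₁ (y 0) (hy 0).1 (hy 0).2
      have hy2 := hq₂ (tl y) (fun i => hy i.succ)
      refine ⟨⟨_, hy1.1, _, hy2.1, rfl⟩, ?_⟩
      rw [dist_pr]
      have h3 : dist (q₁ (y 0)) (ι₁ (y 0)) ^ 2 ≤ η ^ 2 :=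
        pow_le_pow_left₀ dist_nonneg hy1.2 2
      push_cast
      linarith [hy2.2]
    · intro y hy
      have hy2 := hq₂ (tl y) (fun i => hy i.succ)
      have h3 := ha₁ (y 0) (hy 0).1 (hy 0).2
      have h4 := ha₁ 0 le_rfl hL
      have h5 : c (pr (q₁ (y 0)) (q₂ (tl y))) = c (pr (q₁ 0) (q₂ (tl y))) := by
        have h6 := congrFun (h3.trans h4.symm) ⟨q₂ (tl y), hy2.1⟩
        exact h6
      rw [h5]
      exact ha₂ (tl y) (fun i => hy i.succ)

/-- Translation. -/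
lemma isometry_add {ι : Type} [Fintype ι] (b : E ι) : Isometry (fun y : E ι => y + b) :=
  Isometry.of_dist_eq fun x y => dist_add_right x y b

theorem lemmaA {m : ℕ} (Y : Set (E (Fin m))) (hY : Y.Finite) (H : ℝ) (hH : 0 < H)
    (C : Type) [Finite C] :
    ∃ (κ : Type) (_ : Fintype κ) (F : Set (E κ)), F.Finite ∧ ∀ c : E κ → C,
      ∃ (ι q : E (Fin m) → E κ), Isometry ι ∧
        (∀ y ∈ Y, q y ∈ F ∧ dist (q y) (ι y) = H) ∧
        ∀ y ∈ Y, ∀ y' ∈ Y, c (q y) = c (q y') := by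
  classical
  rcases isEmpty_or_nonempty C with hC | hC
  · exact ⟨Fin 0, inferInstance, ∅, Set.finite_empty, fun c => (hC.false (c 0)).elim⟩
  have hYf : Fintype Y := hY.fintype
  set n : ℕ := Fintype.card Y with hn
  -- bound of the coordinates
  obtain ⟨B, hB0, hB⟩ : ∃ B : ℝ, 0 ≤ B ∧ ∀ y ∈ Y, ∀ i, |y i| ≤ B := by
    obtain ⟨B, hB⟩ := hY.isBounded.exists_norm_le
    refine ⟨max B 0, le_max_right _ _, fun y hy i => ?_⟩
    have h1 : |y i| ≤ ‖y‖ := by
      rw [← Real.norm_eq_abs]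
      exact PiLp.norm_apply_le y i
    exact h1.trans ((hB y hy).trans (le_max_left _ _))
  set η : ℝ := H / (2 * (m + 1) * (n + 1)) with hη
  have hη0 : 0 < η := by positivity
  obtain ⟨κ, hκ, F₀, hF₀, h₀⟩ := near_box (2 * B) η (by positivity) hη0 m C
  have : Finite F₀ := hF₀
  have hfin : Fintype (F₀ → C) := Fintype.ofFinite _
  set R : ℕ := Fintype.card (F₀ → C) * n with hR
  let e : Fin R → E (Fin R) := fun i => EuclideanSpace.single i (H / 2)
  let pt : E κ → E (Fin R) → ℝ → E (κ ⊕ (Fin R ⊕ Unit)) := fun x y u =>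
    pr x (pr y (WithLp.toLp 2 (fun _ => u)))
  have hpt : ∀ x x' y y' u u', dist (pt x y u) (pt x' y' u') ^ 2
      = dist x x' ^ 2 + dist y y' ^ 2 + (u - u') ^ 2 := by
    intro x x' y y' u u'
    simp only [pt]
    rw [dist_pr, dist_pr, dist_sq_eq (WithLp.toLp 2 fun _ : Unit => u)]
    simp
    ring
  refine ⟨κ ⊕ (Fin R ⊕ Unit), inferInstance,
    Set.image2 (fun x y => pt x y 0) F₀ (Set.range e), hF₀.image2 _ (Set.finite_range e),
    fun c => ?_⟩
  -- pigeonhole on the simplex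
  obtain ⟨a, ha⟩ := Fintype.exists_le_card_fiber_of_mul_le_card
    (fun (i : Fin R) (f : F₀) => c (pt f (e i) 0)) (n := n) (by rw [Fintype.card_fin])
  have hσ : Nonempty (Y ↪ {i : Fin R // (fun f : F₀ => c (pt f (e i) 0)) = a}) := by
    refine Function.Embedding.nonempty_of_card_le ?_
    exact ha.trans (Fintype.card_subtype
      (fun i : Fin R => (fun f : F₀ => c (pt f (e i) 0)) = a)).symm.le
  obtain ⟨σ'⟩ := hσ
  let σ : Y → Fin R := fun y => (σ' y).1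
  have hσinj : Function.Injective σ := fun y y' h => σ'.injective (Subtype.ext h)
  have hσc : ∀ (y y' : Y) (f : E κ), f ∈ F₀ → c (pt f (e (σ y)) 0) = c (pt f (e (σ y')) 0) := by
    intro y y' f hf
    have h1 := congrFun (σ' y).2 ⟨f, hf⟩
    have h2 := congrFun (σ' y').2 ⟨f, hf⟩
    exact h1.trans h2.symm
  rcases isEmpty_or_nonempty Y with hYe | ⟨⟨y₀⟩⟩
  · have hYe' : ∀ y, y ∉ Y := fun y hy => hYe.false ⟨y, hy⟩
    obtain ⟨ι₀, q₀, hι₀, _, _, _⟩ := h₀ (fun v => c (pt v 0 0))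
    refine ⟨fun y => pt (ι₀ y) 0 0, fun y => pt (ι₀ y) 0 0, ?_, fun y hy => absurd hy (hYe' y),
      fun y hy => absurd hy (hYe' y)⟩
    refine isometry_of_sq _ fun y y' => ?_
    rw [hpt, hι₀.dist_eq]; simp
  obtain ⟨ι₁, q₁, hι₁, hq₁, b₁, hb₁⟩ := h₀ (fun v => c (pt v (e (σ y₀)) 0))
  let tb : E (Fin m) := WithLp.toLp 2 (fun _ => B)
  let ι₀ : E (Fin m) → E κ := fun y => ι₁ (y + tb)
  let q₀ : E (Fin m) → E κ := fun y => q₁ (y + tb)
  have hbox : ∀ y ∈ Y, ∀ i, 0 ≤ (y + tb) i ∧ (y + tb) i ≤ 2 * B := by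
    intro y hy i
    have h1 := abs_le.1 (hB y hy i)
    have h2 : (y + tb) i = y i + B := rfl
    rw [h2]
    constructor <;> linarith [h1.1, h1.2]
  let er : E (Fin m) → ℝ := fun y => dist (q₀ y) (ι₀ y) ^ 2
  have her : ∀ y ∈ Y, er y ≤ m * η ^ 2 := fun y hy => (hq₁ _ (hbox y hy)).2
  have her0 : ∀ y, 0 ≤ er y := fun y => sq_nonneg _
  let ω : Fin R → ℝ := Function.extend σ (fun y : Y => er y / H) 0
  have hωσ : ∀ y : Y, ω (σ y) = er y / H := fun y => hσinj.extend_apply _ _ y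
  set W : ℝ := ∑ i, ω i ^ 2 with hW
  have hW' : W = ∑ y : Y, (er y / H) ^ 2 := by
    rw [hW]
    symm
    refine Fintype.sum_of_injective σ hσinj _ _ ?_ ?_
    · intro i hi
      have h1 : ¬ ∃ a, σ a = i := by simpa using hi
      simp only [ω]
      rw [Function.extend_apply' _ _ _ h1]
      simp
    · intro y
      rw [hωσ]
  have hWle : W ≤ H ^ 2 / 2 := by
    have h1 : ∀ y : Y, (er y / H) ^ 2 ≤ (H / (4 * (n + 1))) ^ 2 := by
      intro y
      have h2 : er y ≤ H ^ 2 / (4 * (n + 1)) := by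
        refine (her y y.2).trans ?_
        rw [hη, div_pow]
        rw [mul_div_assoc', div_le_div_iff₀ (by positivity) (by positivity)]
        have hm : (0 : ℝ) ≤ m := by positivity
        have hn' : (0 : ℝ) ≤ n := by positivity
        have h3 : (m : ℝ) * (4 * (n + 1)) ≤ (2 * (m + 1) * (n + 1)) ^ 2 := by
          nlinarith [mul_nonneg hm hn', mul_nonneg hm hm, mul_nonneg hn' hn',
            mul_nonneg (mul_nonneg hm hm) hn', mul_nonneg (mul_nonneg hm hn') hn',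
            mul_nonneg (mul_nonneg hm hm) (mul_nonneg hn' hn')]
        nlinarith [sq_nonneg H]
      have h4 : er y / H ≤ H / (4 * (n + 1)) := by
        rw [div_le_iff₀ hH]
        calc er y ≤ H ^ 2 / (4 * (n + 1)) := h2
          _ = H / (4 * (n + 1)) * H := by ring
      exact pow_le_pow_left₀ (by have := her0 y; positivity) h4 2
    have hn' : (0 : ℝ) ≤ n := by positivity
    calc W = ∑ y : Y, (er y / H) ^ 2 := hW'
      _ ≤ ∑ _y : Y, (H / (4 * (n + 1))) ^ 2 := Finset.sum_le_sum fun y _ => h1 y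
      _ = n * (H / (4 * (n + 1))) ^ 2 := by
          rw [Finset.sum_const, nsmul_eq_mul, Finset.card_univ]
      _ ≤ H ^ 2 / 2 := by
          rw [div_pow, mul_div_assoc', div_le_div_iff₀ (by positivity) (by positivity)]
          have : (n : ℝ) * 2 ≤ (4 * (n + 1)) ^ 2 := by nlinarith
          nlinarith [sq_nonneg H]
  have hu : 0 ≤ H ^ 2 - H ^ 2 / 4 - W := by nlinarith [sq_nonneg H]
  set u : ℝ := Real.sqrt (H ^ 2 - H ^ 2 / 4 - W) with hudef
  have hu2 : u ^ 2 = H ^ 2 - H ^ 2 / 4 - W := Real.sq_sqrt hu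
  let ωv : E (Fin R) := WithLp.toLp 2 ω
  have hde : ∀ i, dist (e i) ωv ^ 2 = H ^ 2 / 4 - H * ω i + W := by
    intro i
    rw [dist_sq_eq]
    have h1 : ∀ j, (e i j - ωv j) ^ 2 = (if j = i then H ^ 2 / 4 - H * ω i else 0) + ω j ^ 2 := by
      intro j
      simp only [e, ωv]
      by_cases hj : j = i
      · subst hj
        rw [if_pos rfl]
        have : (EuclideanSpace.single j (H / 2) : E (Fin R)) j = H / 2 := by simp
        rw [this]; ring
      · rw [if_neg hj]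
        have : (EuclideanSpace.single i (H / 2) : E (Fin R)) j = 0 := by simp [hj]
        rw [this]; ring
    simp_rw [h1]
    rw [Finset.sum_add_distrib, Finset.sum_ite_eq' Finset.univ i, if_pos (Finset.mem_univ i)]
  -- the value of q on points outside `Y` does not matter
  let q : E (Fin m) → E (κ ⊕ (Fin R ⊕ Unit)) := fun y =>
    if h : y ∈ Y then pt (q₀ y) (e (σ ⟨y, h⟩)) 0 else pt (q₀ y) 0 0
  have hq : ∀ y : Y, q y = pt (q₀ y) (e (σ y)) 0 := by
    intro y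
    simp only [q]
    rw [dif_pos y.2]
  refine ⟨fun y => pt (ι₀ y) ωv u, q, ?_, ?_, ?_⟩
  · refine isometry_of_sq _ fun y y' => ?_
    rw [hpt, hι₁.dist_eq]
    simp
  · intro y hy
    have hqy := hq ⟨y, hy⟩
    simp only at hqy
    rw [hqy]
    refine ⟨⟨_, (hq₁ _ (hbox y hy)).1, _, ⟨_, rfl⟩, rfl⟩, ?_⟩
    have h1 := hpt (q₀ y) (ι₀ y) (e (σ ⟨y, hy⟩)) ωv 0 u
    rw [hde, hωσ] at h1
    have h2 : dist (pt (q₀ y) (e (σ ⟨y, hy⟩)) 0) (pt (ι₀ y) ωv u) ^ 2 = H ^ 2 := by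
      rw [h1]
      have h3 : dist (q₀ y) (ι₀ y) ^ 2 = er y := rfl
      rw [h3]
      simp only
      have h4 : (0 - u) ^ 2 = u ^ 2 := by ring
      rw [h4, hu2]
      field_simp
      ring
    rwa [sq_eq_sq₀ dist_nonneg hH.le] at h2
  · have key : ∀ y : Y, c (q y) = b₁ := by
      intro y
      rw [hq]
      have h1 := hq₁ _ (hbox y y.2)
      rw [hσc y y₀ (q₀ y) h1.1]
      exact hb₁ _ (hbox y y.2)
    intro y hy y' hy'
    rw [key ⟨y, hy⟩, key ⟨y', hy'⟩]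

end Pool.Agent.Helper365_Ramsey
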