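import Pool.Agent.Helper365_Ramsey.Hyper

set_option autoImplicit false

namespace Pool.Agent.Helper365_Ramsey

open Filter

/-- Finite dimensional Euclidean space with coordinates indexed by `ι`. -/
abbrev E (ι : Type) : Type := EuclideanSpace ℝ ι

/-- The point with the coordinates of `x` and those of `y`. -/
noncomputable def pr {ι κ : Type} (x : E ι) (y : E κ) : E (ι ⊕ κ) :=
  WithLp.toLp 2 (Sum.elim x.ofLp y.ofLp)

lemma dist_sq_eq {ι : Type} [Fintype ι] (x y : E ι) : dist x y ^ 2 = ∑ i, (x i - y i) ^ 2 := by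
  rw [EuclideanSpace.dist_eq, Real.sq_sqrt (Finset.sum_nonneg fun _ _ => sq_nonneg _)]
  refine Finset.sum_congr rfl fun i _ => ?_
  rw [Real.dist_eq, sq_abs]

lemma dist_pr {ι κ : Type} [Fintype ι] [Fintype κ] (x x' : E ι) (y y' : E κ) :
    dist (pr x y) (pr x' y') ^ 2 = dist x x' ^ 2 + dist y y' ^ 2 := by
  rw [dist_sq_eq, dist_sq_eq, dist_sq_eq, Fintype.sum_sum_type]
  simp [pr]

lemma isometry_of_sq {α β : Type*} [PseudoMetricSpace α] [PseudoMetricSpace β] (f : α → β)
    (h : ∀ x y, dist (f x) (f y) ^ 2 = dist x y ^ 2) : Isometry f := by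
  refine Isometry.of_dist_eq fun x y => ?_
  have := h x y
  rwa [sq_eq_sq₀ dist_nonneg dist_nonneg] at this

/-- The triangular profile. -/
def tri (n x : ℤ) : ℤ := max 0 (min x (2 * n - x))

lemma tri_d1 (n x : ℤ) (h1 : 1 ≤ x) (h2 : x ≤ n) : tri n (x - 1) - tri n x = -1 := by
  unfold tri; omega

lemma tri_d2 (n x : ℤ) (hn : 0 ≤ n) (h1 : n < x) (h2 : x ≤ 2 * n) :
    tri n (x - 1) - tri n x = 1 := by
  unfold tri; omega

lemma tri_d3 (n x : ℤ) (hn : 0 ≤ n) (h : ¬ (1 ≤ x ∧ x ≤ 2 * n)) :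
    tri n (x - 1) - tri n x = 0 := by
  unfold tri; omega

lemma tri_sq (n x : ℤ) (hn : 0 ≤ n) :
    (tri n (x - 1) - tri n x) ^ 2 = if 1 ≤ x ∧ x ≤ 2 * n then 1 else 0 := by
  split_ifs with h
  · rcases le_or_gt x n with h2 | h2
    · rw [tri_d1 n x h.1 h2]; norm_num
    · rw [tri_d2 n x hn h2 h.2]; norm_num
  · rw [tri_d3 n x hn h]; norm_num

lemma tri_lip (n x t : ℤ) (ht : 0 ≤ t) : |tri n (x - t) - tri n x| ≤ t := by
  unfold tri
  rw [abs_le]
  omega

lemma tri_err (n x t : ℤ) (hn : 0 ≤ n) (ht : 0 ≤ t) :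
    |tri n (x - t) - tri n x - t * (tri n (x - 1) - tri n x)| ≤ 2 * t := by
  have h1 := tri_lip n x t ht
  have h2 : |tri n (x - 1) - tri n x| ≤ 1 := by
    have := tri_lip n x 1 (by norm_num)
    exact this
  calc |tri n (x - t) - tri n x - t * (tri n (x - 1) - tri n x)|
      ≤ |tri n (x - t) - tri n x| + |t * (tri n (x - 1) - tri n x)| := abs_sub _ _
    _ ≤ t + t * 1 := by
        rw [abs_mul, abs_of_nonneg ht]
        gcongr
    _ = 2 * t := by ring

lemma tri_zero (n x t T : ℤ) (ht : 0 ≤ t) (htT : t ≤ T)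
    (h1 : ¬ x ≤ T) (h2 : ¬ (n ≤ x ∧ x ≤ n + T)) (h3 : ¬ (2 * n ≤ x ∧ x ≤ 2 * n + T)) (hn : 0 ≤ n) :
    tri n (x - t) - tri n x - t * (tri n (x - 1) - tri n x) = 0 := by
  rcases lt_or_ge x n with h4 | h4
  · rw [tri_d1 n x (by omega) (by omega)]
    unfold tri; omega
  · have h5 : n + T < x := by omega
    rcases lt_or_ge x (2 * n) with h6 | h6
    · rw [tri_d2 n x hn (by omega) (by omega)]
      unfold tri; omega
    · rw [tri_d3 n x hn (by omega)]
      unfold tri; omega

lemma sum_g (n K : ℕ) (hK : 2 * n < K) :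
    ∑ k : Fin K, ((tri n (((k : ℕ) : ℤ) - 1) - tri n ((k : ℕ) : ℤ) : ℤ) : ℝ) ^ 2 = 2 * n := by
  have h1 : ∀ k : Fin K, ((tri n (((k : ℕ) : ℤ) - 1) - tri n ((k : ℕ) : ℤ) : ℤ) : ℝ) ^ 2
      = if (1 ≤ (k : ℕ) ∧ (k : ℕ) ≤ 2 * n) then (1 : ℝ) else 0 := by
    intro k
    have := tri_sq n (k : ℕ) (by positivity)
    rw [← Int.cast_pow, this]
    split_ifs with ha hb hb
    · simp
    · exfalso; omega
    · exfalso; omega
    · simp
  simp_rw [h1]
  rw [Fin.sum_univ_eq_sum_range (fun k => if (1 ≤ k ∧ k ≤ 2 * n) then (1 : ℝ) else 0) K]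
  rw [Finset.sum_boole]
  have : (Finset.range K).filter (fun k => 1 ≤ k ∧ k ≤ 2 * n) = Finset.Icc 1 (2 * n) := by
    ext k; simp only [Finset.mem_filter, Finset.mem_range, Finset.mem_Icc]; omega
  rw [this]
  simp

lemma sum_err (n K T t : ℕ) (ht : t ≤ T) :
    ∑ k : Fin K, ((tri n (((k : ℕ) : ℤ) - t) - tri n ((k : ℕ) : ℤ)
      - t * (tri n (((k : ℕ) : ℤ) - 1) - tri n ((k : ℕ) : ℤ)) : ℤ) : ℝ) ^ 2
      ≤ 12 * (T + 1) * T ^ 2 := by
  let B : Finset ℕ := Finset.Icc 0 T ∪ Finset.Icc n (n + T) ∪ Finset.Icc (2 * n) (2 * n + T)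
  have hB : (B.card : ℝ) ≤ 3 * (T + 1) := by
    have : B.card ≤ 3 * (T + 1) := by
      calc B.card ≤ (Finset.Icc 0 T ∪ Finset.Icc n (n + T)).card
            + (Finset.Icc (2 * n) (2 * n + T)).card := Finset.card_union_le _ _
        _ ≤ (Finset.Icc 0 T).card + (Finset.Icc n (n + T)).card
            + (Finset.Icc (2 * n) (2 * n + T)).card := by
            gcongr; exact Finset.card_union_le _ _
        _ = 3 * (T + 1) := by simp only [Nat.card_Icc]; omega
    exact_mod_cast this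
  have h1 : ∀ k : Fin K, ((tri n (((k : ℕ) : ℤ) - t) - tri n ((k : ℕ) : ℤ)
      - t * (tri n (((k : ℕ) : ℤ) - 1) - tri n ((k : ℕ) : ℤ)) : ℤ) : ℝ) ^ 2
      ≤ if (k : ℕ) ∈ B then (2 * T : ℝ) ^ 2 else 0 := by
    intro k
    split_ifs with hk
    · have := tri_err n (k : ℕ) t (by positivity) (by positivity)
      have h2 : |((tri n (((k : ℕ) : ℤ) - t) - tri n ((k : ℕ) : ℤ)
      - t * (tri n (((k : ℕ) : ℤ) - 1) - tri n ((k : ℕ) : ℤ)) : ℤ) : ℝ)| ≤ 2 * T := by
        rw [← Int.cast_abs]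
        have h3 : (|tri n (((k : ℕ) : ℤ) - t) - tri n ((k : ℕ) : ℤ)
          - t * (tri n (((k : ℕ) : ℤ) - 1) - tri n ((k : ℕ) : ℤ))| : ℤ) ≤ 2 * (T : ℤ) := by
          refine this.trans ?_
          have : (t : ℤ) ≤ T := by exact_mod_cast ht
          linarith
        exact_mod_cast h3
      rw [← sq_abs]
      exact pow_le_pow_left₀ (abs_nonneg _) h2 2
    · simp only [B, Finset.mem_union, Finset.mem_Icc, not_or] at hk
      have := tri_zero n (k : ℕ) t T (by positivity) (by exact_mod_cast ht)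
        (by omega) (by omega) (by omega) (by positivity)
      rw [this]; simp
  calc _ ≤ ∑ k : Fin K, (if (k : ℕ) ∈ B then (2 * T : ℝ) ^ 2 else 0) :=
        Finset.sum_le_sum fun k _ => h1 k
    _ = ∑ k ∈ Finset.range K, (if k ∈ B then (2 * T : ℝ) ^ 2 else 0) :=
        Fin.sum_univ_eq_sum_range (fun k => if k ∈ B then (2 * T : ℝ) ^ 2 else 0) K
    _ ≤ B.card * (2 * T : ℝ) ^ 2 := by
        rw [← Finset.sum_filter, Finset.sum_const, nsmul_eq_mul]
        gcongr
        intro k hk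
        exact (Finset.mem_filter.1 hk).2
    _ ≤ (3 * (T + 1)) * (2 * T : ℝ) ^ 2 := by gcongr
    _ = 12 * (T + 1) * T ^ 2 := by ring

/-- The spread vector of a set `A` of positions with the weights `w`. -/
noncomputable def sv (N : ℕ) (w : ℕ → ℝ) (A : Finset ℕ) : E (Fin N) :=
  WithLp.toLp 2 (fun i => if (i : ℕ) ∈ A then w ((A.filter (· < (i : ℕ))).card) else 0)

/-- Extension of a vector along a map of the coordinates. -/
noncomputable def ext {K N : ℕ} (φ : Fin K → Fin N) (u : Fin K → ℝ) : E (Fin N) :=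
  WithLp.toLp 2 (Function.extend φ u 0)

lemma dist_ext {K N : ℕ} (φ : Fin K → Fin N) (hφ : Function.Injective φ) (u u' : Fin K → ℝ) :
    dist (ext φ u) (ext φ u') ^ 2 = ∑ k, (u k - u' k) ^ 2 := by
  rw [dist_sq_eq]
  symm
  refine Fintype.sum_of_injective φ hφ _ _ ?_ ?_
  · intro i hi
    have h1 : ¬ ∃ a, φ a = i := by simpa using hi
    simp only [ext]
    rw [Function.extend_apply' _ _ _ h1, Function.extend_apply' _ _ _ h1]
    simp
  · intro k
    simp only [ext]
    rw [hφ.extend_apply, hφ.extend_apply]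

theorem near_line (L η : ℝ) (hη : 0 < η) (C : Type) [Finite C] :
    ∃ (N : ℕ) (F : Set (E (Fin N))), F.Finite ∧ ∀ c : E (Fin N) → C,
      ∃ (ι q : ℝ → E (Fin N)), Isometry ι ∧
        (∀ y, 0 ≤ y → y ≤ L → q y ∈ F ∧ dist (q y) (ι y) ≤ η) ∧
        ∃ a, ∀ y, 0 ≤ y → y ≤ L → c (q y) = a := by
  classical
  set T : ℕ := ⌈2 * L / η⌉₊ with hT
  set n : ℕ := 6 * (T + 1) * T ^ 2 + T + 1 with hn
  set γ : ℝ := η / 2 with hγ
  have hγ0 : 0 < γ := by positivity
  have hn0 : (0 : ℝ) < n := by positivity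
  set lam : ℝ := γ / Real.sqrt (2 * n) with hlam
  have hlam2 : lam ^ 2 * (2 * n) = γ ^ 2 := by
    rw [hlam, div_pow, Real.sq_sqrt (by positivity)]
    field_simp
  set M : ℕ := 2 * n + 1 with hM
  set K : ℕ := M + T + 1 with hK
  obtain ⟨N, hN⟩ := ramsey_fin C M K
  let w : ℕ → ℝ := fun j => lam * (tri n j : ℤ)
  refine ⟨N, (fun A => sv N w A) '' (↑(Finset.range N).powerset : Set (Finset ℕ)),
    (Finset.finite_toSet _).image _, fun c => ?_⟩
  obtain ⟨S, hSN, hSK, χ, hχ⟩ := hN (fun A => c (sv N w A))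
  let e := S.orderEmbOfFin hSK
  have heN : ∀ k, e k < N := fun k => Finset.mem_range.1 (hSN (S.orderEmbOfFin_mem hSK k))
  let φ : Fin K → Fin N := fun k => ⟨e k, heN k⟩
  have hφ : Function.Injective φ := by
    intro a b hab
    have : e a = e b := congrArg Fin.val hab
    exact e.injective this
  -- the sets
  let A : ℕ → Finset ℕ := fun t =>
    (Finset.univ.filter (fun k : Fin K => t ≤ (k : ℕ) ∧ (k : ℕ) < t + M)).map e.toEmbedding
  have hAS : ∀ t, A t ⊆ S := by
    intro t x hx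
    simp only [A, Finset.mem_map] at hx
    obtain ⟨k, _, rfl⟩ := hx
    exact S.orderEmbOfFin_mem hSK k
  have hAcard : ∀ t, t ≤ T → (A t).card = M := by
    intro t ht
    simp only [A, Finset.card_map]
    have : (Finset.univ.filter (fun k : Fin K => t ≤ (k : ℕ) ∧ (k : ℕ) < t + M))
        = Finset.univ.filter (fun k : Fin K => (k : ℕ) ∈ Finset.Ico t (t + M)) := by
      ext k; simp
    rw [this]
    have h2 : ((Finset.univ.filter (fun k : Fin K => (k : ℕ) ∈ Finset.Ico t (t + M))).map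
        Fin.valEmbedding) = Finset.Ico t (t + M) := by
      ext x
      simp only [Finset.mem_map, Finset.mem_filter, Finset.mem_univ, true_and,
        Fin.valEmbedding_apply]
      constructor
      · rintro ⟨k, hk, rfl⟩; exact hk
      · intro hx
        have hx' := Finset.mem_Ico.1 hx
        exact ⟨⟨x, by omega⟩, hx, rfl⟩
    rw [← Finset.card_map Fin.valEmbedding, h2, Nat.card_Ico]
    omega
  let v : ℕ → Fin K → ℝ := fun t k => lam * (tri n (((k : ℕ) : ℤ) - t) : ℤ)
  have hv : ∀ t, t ≤ T → sv N w (A t) = ext φ (v t) := by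
    intro t ht
    ext i
    simp only [sv, ext]
    by_cases hi : ∃ k, φ k = i
    · obtain ⟨k, rfl⟩ := hi
      rw [hφ.extend_apply]
      have h1 : ((φ k : Fin N) : ℕ) ∈ A t ↔ t ≤ (k : ℕ) ∧ (k : ℕ) < t + M := by
        simp only [A, Finset.mem_map, Finset.mem_filter, Finset.mem_univ, true_and]
        constructor
        · rintro ⟨k', hk', he⟩
          have : k' = k := e.injective he
          rwa [this] at hk'
        · intro h; exact ⟨k, h, rfl⟩
      by_cases h2 : t ≤ (k : ℕ) ∧ (k : ℕ) < t + M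
      · rw [if_pos (h1.2 h2)]
        have h3 : ((A t).filter (· < ((φ k : Fin N) : ℕ))).card = (k : ℕ) - t := by
          have h4 : (A t).filter (· < ((φ k : Fin N) : ℕ))
              = (Finset.univ.filter (fun k' : Fin K => t ≤ (k' : ℕ) ∧ (k' : ℕ) < (k : ℕ))).map
                e.toEmbedding := by
            ext x
            simp only [A, Finset.mem_map, Finset.mem_filter, Finset.mem_univ, true_and]
            constructor
            · rintro ⟨⟨k', hk', rfl⟩, hlt⟩
              have : k' < k := e.lt_iff_lt.1 hlt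
              exact ⟨k', ⟨hk'.1, this⟩, rfl⟩
            · rintro ⟨k', hk', rfl⟩
              have h5 : k' < k := hk'.2
              exact ⟨⟨k', ⟨hk'.1, by omega⟩, rfl⟩, e.lt_iff_lt.2 h5⟩
          rw [h4, Finset.card_map, ← Finset.card_map Fin.valEmbedding]
          have h6 : ((Finset.univ.filter (fun k' : Fin K => t ≤ (k' : ℕ) ∧ (k' : ℕ) < (k : ℕ))).map
            Fin.valEmbedding) = Finset.Ico t (k : ℕ) := by
            ext x
            simp only [Finset.mem_map, Finset.mem_filter, Finset.mem_univ, true_and,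
              Fin.valEmbedding_apply, Finset.mem_Ico]
            constructor
            · rintro ⟨k', hk', rfl⟩; exact hk'
            · intro hx
              exact ⟨⟨x, by have := k.2; omega⟩, hx, rfl⟩
          rw [h6, Nat.card_Ico]
        rw [h3]
        simp only [w, v]
        congr 3
        omega
      · rw [if_neg (fun h => h2 (h1.1 h))]
        simp only [v]
        have : tri n (((k : ℕ) : ℤ) - t) = 0 := by
          unfold tri
          omega
        rw [this]; simp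
    · rw [Function.extend_apply' _ _ _ hi, if_neg]
      · rfl
      · intro h
        simp only [A, Finset.mem_map] at h
        obtain ⟨k, _, hk⟩ := h
        exact hi ⟨k, Fin.ext hk⟩
  -- the isometry
  let g : Fin K → ℝ := fun k => lam * ((tri n (((k : ℕ) : ℤ) - 1) - tri n ((k : ℕ) : ℤ) : ℤ) : ℝ)
  have hg : ∑ k, g k ^ 2 = γ ^ 2 := by
    simp only [g, mul_pow]
    rw [← Finset.mul_sum, sum_g n K (by omega), hlam2]
  let ι : ℝ → E (Fin N) := fun y => ext φ (fun k => v 0 k + (y / γ) * g k)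
  have hdι : ∀ s s' : ℝ, dist (ext φ (fun k => v 0 k + s * g k)) (ext φ (fun k => v 0 k + s' * g k))
      = |s - s'| * γ := by
    intro s s'
    have h1 := dist_ext φ hφ (fun k => v 0 k + s * g k) (fun k => v 0 k + s' * g k)
    have h2 : ∑ k, ((v 0 k + s * g k) - (v 0 k + s' * g k)) ^ 2 = (|s - s'| * γ) ^ 2 := by
      have h3 : ∀ k, ((v 0 k + s * g k) - (v 0 k + s' * g k)) ^ 2 = (s - s') ^ 2 * g k ^ 2 := by
        intro k; ring
      simp_rw [h3]
      rw [← Finset.mul_sum, hg, mul_pow, sq_abs]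
    rw [h2, sq_eq_sq₀ dist_nonneg (by positivity)] at h1
    exact h1
  have hι : Isometry ι := by
    refine Isometry.of_dist_eq fun y y' => ?_
    simp only [ι]
    rw [hdι, Real.dist_eq, ← sub_div, abs_div, abs_of_pos hγ0]
    field_simp
  have hfl : ∀ y, 0 ≤ y → y ≤ L → ⌊y / γ⌋₊ ≤ T := by
    intro y hy0 hyL
    have h1 : y / γ ≤ T := by
      calc y / γ ≤ L / γ := by gcongr
        _ = 2 * L / η := by rw [hγ]; field_simp
        _ ≤ T := Nat.le_ceil _
    exact Nat.floor_le_of_le h1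
  refine ⟨ι, fun y => sv N w (A ⌊y / γ⌋₊), hι, ?_, χ, ?_⟩
  · intro y hy0 hyL
    have ht := hfl y hy0 hyL
    set t := ⌊y / γ⌋₊ with htdef
    refine ⟨⟨A t, ?_, rfl⟩, ?_⟩
    · simp only [Finset.coe_powerset, Set.mem_preimage, Set.mem_powerset_iff]
      exact_mod_cast (hAS t).trans hSN
    · simp only
      rw [hv t ht]
      have h1 : dist (ext φ (v t)) (ext φ (fun k => v 0 k + (t : ℝ) * g k)) ≤ γ := by
        have h2 := dist_ext φ hφ (v t) (fun k => v 0 k + (t : ℝ) * g k)
        have h3 : ∑ k, (v t k - (v 0 k + (t : ℝ) * g k)) ^ 2 ≤ γ ^ 2 := by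
          have h4 : ∀ k, (v t k - (v 0 k + (t : ℝ) * g k)) ^ 2
              = lam ^ 2 * ((tri n (((k : ℕ) : ℤ) - t) - tri n ((k : ℕ) : ℤ)
                - t * (tri n (((k : ℕ) : ℤ) - 1) - tri n ((k : ℕ) : ℤ)) : ℤ) : ℝ) ^ 2 := by
            intro k
            simp only [v, g]
            push_cast
            simp only [sub_zero]
            ring
          simp_rw [h4]
          rw [← Finset.mul_sum]
          have h5 := sum_err n K T t ht
          calc lam ^ 2 * _ ≤ lam ^ 2 * (12 * (T + 1) * T ^ 2) := by gcongr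
            _ ≤ lam ^ 2 * (2 * n) := by
                have h6 : (n : ℝ) = 6 * (T + 1) * T ^ 2 + T + 1 := by rw [hn]; push_cast; ring
                have h7 : (0 : ℝ) ≤ T := by positivity
                have h8 : (12 * (T + 1) * T ^ 2 : ℝ) ≤ 2 * n := by rw [h6]; nlinarith
                exact mul_le_mul_of_nonneg_left h8 (sq_nonneg _)
            _ = γ ^ 2 := hlam2
        rw [← h2] at h3
        exact (pow_le_pow_iff_left₀ dist_nonneg hγ0.le (by norm_num)).1 h3
      have h2 : dist (ext φ (fun k => v 0 k + (t : ℝ) * g k)) (ι y) ≤ γ := by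
        simp only [ι]
        rw [hdι]
        have h3 : |(t : ℝ) - y / γ| ≤ 1 := by
          have h4 := Nat.floor_le (a := y / γ) (by positivity)
          have h5 := Nat.lt_floor_add_one (y / γ)
          rw [abs_le]
          constructor
          · rw [htdef]; linarith
          · rw [htdef]; linarith
        calc _ ≤ 1 * γ := by gcongr
          _ = γ := one_mul _
      calc dist (ext φ (v t)) (ι y) ≤ _ + _ := dist_triangle _ (ext φ (fun k => v 0 k + (t : ℝ) * g k)) _
        _ ≤ γ + γ := add_le_add h1 h2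
        _ = η := by rw [hγ]; ring
  · intro y hy0 hyL
    exact hχ _ (hAS _) (hAcard _ (hfl y hy0 hyL))

end Pool.Agent.Helper365_Ramsey
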