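import Pool.Agent.Helper365_Ramsey.LemmaA

set_option autoImplicit false

namespace Pool.Agent.Helper365_Ramsey

open Filter

/-- Monochromatic copies of `T` exist in `ℝ^m` for colourings using at most `k` of the colours. -/
def InfVer (T : Type) [MetricSpace T] (r k m : ℕ) : Prop :=
  ∀ c : E (Fin m) → Fin r, ∀ S : Finset (Fin r), S.card ≤ k → (∀ y, c y ∈ S) →
    ∃ g : T → E (Fin m), Isometry g ∧ ∀ s t, c (g s) = c (g t)

/-- The same inside a finite set of points. -/
def FinVer (T : Type) [MetricSpace T] (r k m : ℕ) (Y : Set (E (Fin m))) : Prop :=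
  ∀ c : E (Fin m) → Fin r, ∀ S : Finset (Fin r), S.card ≤ k → (∀ y ∈ Y, c y ∈ S) →
    ∃ g : T → E (Fin m), Isometry g ∧ (∀ t, g t ∈ Y) ∧ ∀ s t, c (g s) = c (g t)

theorem compactness (T : Type) [MetricSpace T] [Finite T] (r k m : ℕ) (h : InfVer T r k m) :
    ∃ Y : Set (E (Fin m)), Y.Finite ∧ FinVer T r k m Y := by
  classical
  by_contra hcon
  have hcon' : ∀ Y : Finset (E (Fin m)), ∃ (c : E (Fin m) → Fin r) (S : Finset (Fin r)),
      S.card ≤ k ∧ (∀ y ∈ Y, c y ∈ S) ∧ ∀ g : T → E (Fin m), Isometry g → (∀ t, g t ∈ Y) →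
        ∃ s t, c (g s) ≠ c (g t) := by
    intro Y
    by_contra h2
    push Not at h2
    apply hcon
    refine ⟨(Y : Set (E (Fin m))), Y.finite_toSet, fun c S hS hc => ?_⟩
    obtain ⟨g, hg, hgY, hgc⟩ := h2 c S hS (fun y hy => hc y hy)
    exact ⟨g, hg, fun t => hgY t, hgc⟩
  choose c S hS hcS hbad using hcon'
  let U : Ultrafilter (Finset (E (Fin m))) := Ultrafilter.of atTop
  have hU : (U : Filter (Finset (E (Fin m)))) ≤ atTop := Ultrafilter.of_le atTop
  choose c' hc' using fun v : E (Fin m) => exists_ultra_const U (fun Y => c Y v)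
  obtain ⟨S', hS'⟩ := exists_ultra_const U S
  have hcard : S'.card ≤ k := by
    obtain ⟨Y, hY⟩ := hS'.exists
    rw [← hY]; exact hS Y
  have hmem : ∀ v, ∀ᶠ Y in (U : Filter (Finset (E (Fin m)))), v ∈ Y := by
    intro v
    have h1 : ∀ᶠ Y in (atTop : Filter (Finset (E (Fin m)))), v ∈ Y := by
      filter_upwards [eventually_ge_atTop {v}] with Y hY
      exact hY (Finset.mem_singleton_self v)
    exact hU h1
  have hc'S : ∀ v, c' v ∈ S' := by
    intro v
    obtain ⟨Y, ⟨hY1, hY2⟩, hY3⟩ := (((hc' v).and hS').and (hmem v)).exists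
    rw [← hY1, ← hY2]
    exact hcS Y v hY3
  obtain ⟨g, hg, hgc⟩ := h c' S' hcard hc'S
  have h1 : ∀ᶠ Y in (U : Filter (Finset (E (Fin m)))), ∀ t : T, g t ∈ Y ∧ c Y (g t) = c' (g t) := by
    rw [Filter.eventually_all]
    intro t
    exact (hmem (g t)).and (hc' (g t))
  obtain ⟨Y, hY⟩ := h1.exists
  obtain ⟨s, t, hst⟩ := hbad Y g hg (fun t => (hY t).1)
  apply hst
  rw [(hY s).2, (hY t).2]
  exact hgc s t

lemma dist_comb {ι V V' : Type} [Fintype ι] [DecidableEq ι] [NormedAddCommGroup V]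
    [InnerProductSpace ℝ V] [NormedAddCommGroup V'] [InnerProductSpace ℝ V'] (w : ι → ℝ)
    (hw : ∑ i, w i = 1) (p : ι → V) (p' : ι → V') (h : ∀ i j, dist (p i) (p j) = dist (p' i) (p' j))
    (i₀ : ι) : dist (Finset.univ.affineCombination ℝ p w) (p i₀)
      = dist (Finset.univ.affineCombination ℝ p' w) (p' i₀) := by
  have h1 : Finset.univ.affineCombination ℝ p (Pi.single i₀ 1) = p i₀ :=
    Finset.affineCombination_piSingle ℝ Finset.univ p (Finset.mem_univ i₀)
  have h2 : Finset.univ.affineCombination ℝ p' (Pi.single i₀ 1) = p' i₀ :=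
    Finset.affineCombination_piSingle ℝ Finset.univ p' (Finset.mem_univ i₀)
  have hs : ∑ i, (Pi.single i₀ 1 : ι → ℝ) i = 1 := by simp
  have h3 := EuclideanGeometry.dist_affineCombination (s := Finset.univ) p hw hs
  have h4 := EuclideanGeometry.dist_affineCombination (s := Finset.univ) p' hw hs
  rw [h1] at h3
  rw [h2] at h4
  simp_rw [h] at h3
  have h5 := h3.trans h4.symm
  rw [← sq, ← sq, sq_eq_sq₀ dist_nonneg dist_nonneg] at h5
  exact h5

/-- The foot of a point `z` on the affine hull of the finite set of points `p`. -/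
theorem foot {ι V : Type} [Fintype ι] [Nonempty ι] [NormedAddCommGroup V]
    [InnerProductSpace ℝ V] [FiniteDimensional ℝ V] (p : ι → V) (z : V)
    (hz : ∀ w : ι → ℝ, ∑ i, w i = 1 → Finset.univ.affineCombination ℝ p w ≠ z) :
    ∃ (w : ι → ℝ) (H : ℝ), ∑ i, w i = 1 ∧ 0 < H ∧
      ∀ i, dist (p i) z ^ 2 = dist (Finset.univ.affineCombination ℝ p w) (p i) ^ 2 + H ^ 2 := by
  let P : AffineSubspace ℝ V := affineSpan ℝ (Set.range p)
  have hne : Nonempty P := by
    obtain ⟨i⟩ := (inferInstance : Nonempty ι)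
    exact ⟨⟨p i, subset_affineSpan ℝ _ ⟨i, rfl⟩⟩⟩
  let p0 : P := EuclideanGeometry.orthogonalProjection P z
  obtain ⟨w, hw, hp0⟩ := eq_affineCombination_of_mem_affineSpan_of_fintype p0.2
  refine ⟨w, dist z p0, hw, ?_, ?_⟩
  · rw [dist_pos, hp0]
    exact (hz w hw).symm
  · intro i
    have h1 := EuclideanGeometry.dist_sq_eq_dist_orthogonalProjection_sq_add_dist_orthogonalProjection_sq
      (s := P) (p₁ := p i) z (subset_affineSpan ℝ _ ⟨i, rfl⟩)
    rw [sq, h1, ← hp0, sq, sq, dist_comm (p0 : V) (p i)]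

/-- The squared distances between the points `g a` and a further point at height `H` above the
affine combination of the points `g a` with the weights `w`. -/
noncomputable def optD {ι V : Type} [Fintype ι] [NormedAddCommGroup V] [InnerProductSpace ℝ V]
    (w : ι → ℝ) (H : ℝ) (g : ι → V) : Option ι → Option ι → ℝ
  | some a, some b => dist (g a) (g b) ^ 2
  | some a, none => dist (Finset.univ.affineCombination ℝ g w) (g a) ^ 2 + H ^ 2
  | none, some b => dist (Finset.univ.affineCombination ℝ g w) (g b) ^ 2 + H ^ 2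
  | none, none => 0

/-- The inductive step: from `k` to `k + 1` colours. -/
theorem step {ι T : Type} [Fintype ι] [Nonempty ι] [MetricSpace ι] [MetricSpace T] [Finite T]
    (w : ι → ℝ) (H : ℝ) (hH : 0 < H) (j : T → Option ι)
    (hj : ∀ (V : Type) [NormedAddCommGroup V] [InnerProductSpace ℝ V] (g : ι → V), Isometry g →
      ∀ s t, dist s t ^ 2 = optD w H g (j s) (j t))
    (hR : ∀ r : ℕ, ∃ N : ℕ, ∀ c : E (Fin N) → Fin r,
        ∃ g : ι → E (Fin N), Isometry g ∧ ∀ x y, c (g x) = c (g y))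
    (r k m : ℕ) (Y : Set (E (Fin m))) (hY : Y.Finite) (hYT : FinVer T r k m Y) :
    ∃ m', InfVer T r (k + 1) m' := by
  classical
  obtain ⟨κ, hκ, F, hF, hA⟩ := lemmaA Y hY H hH (Fin r)
  have : Finite F := hF
  have hfin : Fintype (F → Fin r) := Fintype.ofFinite _
  obtain ⟨N, hN⟩ := hR (Fintype.card (F → Fin r))
  let Φ : E (Fin N ⊕ κ) ≃ᵢ E (Fin (Fintype.card (Fin N ⊕ κ))) :=
    (LinearIsometryEquiv.piLpCongrLeft 2 ℝ ℝ (Fintype.equivFin (Fin N ⊕ κ))).toIsometryEquiv
  refine ⟨Fintype.card (Fin N ⊕ κ), fun c₀ S hS hc₀ => ?_⟩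
  let c : E (Fin N ⊕ κ) → Fin r := fun v => c₀ (Φ v)
  suffices h : ∃ g : T → E (Fin N ⊕ κ), Isometry g ∧ ∀ s t, c (g s) = c (g t) by
    obtain ⟨g, hg, hgc⟩ := h
    exact ⟨fun t => Φ (g t), Φ.isometry.comp hg, hgc⟩
  have hc : ∀ v, c v ∈ S := fun v => hc₀ _
  obtain ⟨g, hg, hgc⟩ := hN (fun x => Fintype.equivFin (F → Fin r) (fun f => c (pr x f)))
  obtain ⟨x₀⟩ := (inferInstance : Nonempty ι)
  obtain ⟨τ, q, hτ, hq, hqc⟩ := hA (fun v => c (pr (g x₀) v))
  have hqc' : ∀ x, ∀ y ∈ Y, c (pr (g x) (q y)) = c (pr (g x₀) (q y)) := by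
    intro x y hy
    have h1 := (Fintype.equivFin (F → Fin r)).injective (hgc x x₀)
    exact congrFun h1 ⟨q y, (hq y hy).1⟩
  let p : E (Fin N) := Finset.univ.affineCombination ℝ g w
  by_cases hred : ∃ y ∈ Y, c (pr p (τ y)) = c (pr (g x₀) (q y))
  · obtain ⟨y, hy, hred⟩ := hred
    let gg : Option ι → E (Fin N ⊕ κ) := fun o => match o with
      | some a => pr (g a) (q y)
      | none => pr p (τ y)
    have hggc : ∀ o, c (gg o) = c (pr (g x₀) (q y)) := by
      intro o
      cases o with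
      | none => exact hred
      | some a => exact hqc' a y hy
    refine ⟨fun t => gg (j t), ?_, fun s t => by rw [hggc, hggc]⟩
    refine isometry_of_sq _ fun s t => ?_
    rw [hj (E (Fin N)) g hg s t]
    cases j s with
    | none =>
      cases j t with
      | none => simp [optD]
      | some b =>
        simp only [gg, optD]
        rw [dist_pr, dist_comm (τ y), (hq y hy).2]
    | some a =>
      cases j t with
      | none =>
        simp only [gg, optD]
        rw [dist_pr, (hq y hy).2, dist_comm (g a) p]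
      | some b =>
        simp only [gg, optD]
        rw [dist_pr]
        simp
  · push Not at hred
    have hcol : ∀ y ∈ Y, c (pr p (τ y)) ∈ S := fun y _ => hc _
    by_cases hYne : Y.Nonempty
    · obtain ⟨y₀, hy₀⟩ := hYne
      set a : Fin r := c (pr (g x₀) (q y₀)) with ha
      obtain ⟨g', hg', hg'Y, hg'c⟩ := hYT (fun v => c (pr p (τ v))) (S.erase a) (by
          have h1 : a ∈ S := hc _
          rw [Finset.card_erase_of_mem h1]
          omega) (by
          intro y hy
          rw [Finset.mem_erase]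
          refine ⟨?_, hc _⟩
          have h1 := hred y hy
          rw [hqc y hy y₀ hy₀] at h1
          exact h1)
      refine ⟨fun t => pr p (τ (g' t)), ?_, hg'c⟩
      refine isometry_of_sq _ fun s t => ?_
      rw [dist_pr, hτ.dist_eq, hg'.dist_eq]
      simp
    · -- `Y` is empty: then `T` is empty or there is a contradiction
      rw [Set.not_nonempty_iff_eq_empty] at hYne
      subst hYne
      obtain ⟨g', hg', hg'Y, hg'c⟩ := hYT (fun v => c (pr p (τ v))) ∅ (by simp) (by simp)
      refine ⟨fun t => (hg'Y t).elim, ?_, fun s => (hg'Y s).elim⟩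
      exact Isometry.of_dist_eq fun s => (hg'Y s).elim

end Pool.Agent.Helper365_Ramsey
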